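import Mathlib

/-!
MP_d01072_ag: two facts on polynomial maps over the complex numbers.

* `exists_open_image` (Chevalley): the image of a polynomial map contains a nonempty Zariski open
  subset of its Zariski closure.
* `exists_relation`: more polynomials than variables are algebraically dependent.
-/

set_option autoImplicit false

namespace Pool.Agent.Lib.MP_d01072_ag

open MvPolynomial

/-- the ideal of a point is the kernel of the evaluation -/
lemma exists_point_of_isMaximal {τ : Type} [Finite τ] (I : Ideal (MvPolynomial τ ℂ))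
    (hI : I.IsMaximal) : ∃ y : τ → ℂ, ∀ P ∈ I, eval y P = 0 := by
  obtain ⟨y, hy⟩ := (MvPolynomial.isMaximal_iff_eq_vanishingIdeal_singleton).1 hI
  refine ⟨y, fun P hP => ?_⟩
  rw [hy] at hP
  have := (MvPolynomial.mem_vanishingIdeal_singleton_iff y P).1 hP
  simpa using this

/-- **Chevalley.** The image of the polynomial map `y ↦ (F s (y))_s` contains a nonempty Zariski
open subset of its Zariski closure. -/
theorem exists_open_image {σ τ : Type} [Finite σ] [Finite τ] (F : σ → MvPolynomial τ ℂ) :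
    ∃ Q : MvPolynomial σ ℂ, aeval F Q ≠ 0 ∧
      ∀ x : σ → ℂ, (∀ P : MvPolynomial σ ℂ, aeval F P = 0 → eval x P = 0) → eval x Q ≠ 0 →
        ∃ y : τ → ℂ, ∀ s, x s = eval y (F s) := by
  classical
  set φ : MvPolynomial σ ℂ →+* MvPolynomial τ ℂ := (aeval F : MvPolynomial σ ℂ →ₐ[ℂ] _).toRingHom
    with hφ
  have hft : φ.FiniteType := by
    refine RingHom.FiniteType.of_comp_finiteType (f := algebraMap ℂ (MvPolynomial σ ℂ)) ?_
    have : φ.comp (algebraMap ℂ (MvPolynomial σ ℂ)) = algebraMap ℂ (MvPolynomial τ ℂ) := by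
      ext z
      simp [hφ]
    rw [this]
    exact RingHom.finiteType_algebraMap.2 inferInstance
  have hfp : φ.FinitePresentation := RingHom.FinitePresentation.of_finiteType.1 hft
  have hcon := PrimeSpectrum.isConstructible_range_comap hfp
  obtain ⟨S, hS⟩ := PrimeSpectrum.exists_constructibleSetData_iff.2 hcon
  -- the generic point
  set η : PrimeSpectrum (MvPolynomial σ ℂ) := PrimeSpectrum.comap φ ⊥ with hη
  have hηS : η ∈ S.toSet := by
    rw [hS]
    exact ⟨⊥, rfl⟩
  rw [PrimeSpectrum.ConstructibleSetData.toSet, Set.mem_iUnion₂] at hηS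
  obtain ⟨C, hCS, hηC⟩ := hηS
  have hηmem : ∀ P : MvPolynomial σ ℂ, P ∈ η.asIdeal ↔ aeval F P = 0 := by
    intro P
    rw [hη, PrimeSpectrum.comap_asIdeal, Ideal.mem_comap]
    change φ P ∈ (⊥ : Ideal (MvPolynomial τ ℂ)) ↔ _
    rw [Ideal.mem_bot]
    rfl
  obtain ⟨hη1, hη2⟩ := hηC
  rw [PrimeSpectrum.mem_zeroLocus] at hη1 hη2
  have hη3 : aeval F C.f ≠ 0 := by
    intro h0
    exact hη2 (Set.singleton_subset_iff.2 ((hηmem _).2 h0))
  refine ⟨C.f, hη3, fun x hx hxf => ?_⟩
  -- the maximal ideal of the point `x`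
  set p : Ideal (MvPolynomial σ ℂ) := RingHom.ker (eval x : MvPolynomial σ ℂ →+* ℂ) with hp
  have hpmax : p.IsMaximal :=
    RingHom.ker_isMaximal_of_surjective _ fun z => ⟨MvPolynomial.C z, by simp⟩
  have hpmem : ∀ P : MvPolynomial σ ℂ, P ∈ p ↔ eval x P = 0 := fun P => RingHom.mem_ker
  have hpS : (⟨p, hpmax.isPrime⟩ : PrimeSpectrum (MvPolynomial σ ℂ)) ∈ S.toSet := by
    rw [PrimeSpectrum.ConstructibleSetData.toSet, Set.mem_iUnion₂]
    refine ⟨C, hCS, ?_, ?_⟩
    · rw [PrimeSpectrum.mem_zeroLocus]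
      intro P hP
      exact (hpmem P).2 (hx P ((hηmem P).1 (hη1 hP)))
    · rw [PrimeSpectrum.mem_zeroLocus]
      intro hcon
      exact hxf ((hpmem _).1 (hcon rfl))
  rw [hS] at hpS
  obtain ⟨q, hq⟩ := hpS
  obtain ⟨M, hM, hqM⟩ := Ideal.exists_le_maximal q.asIdeal q.isPrime.ne_top
  obtain ⟨y, hy⟩ := exists_point_of_isMaximal M hM
  have hqp : ∀ P ∈ p, φ P ∈ q.asIdeal := by
    intro P hP
    have h1 : (PrimeSpectrum.comap φ q).asIdeal = p := by rw [hq]
    rw [← h1] at hP
    exact hP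
  refine ⟨y, fun s => ?_⟩
  have h2 : (X s - MvPolynomial.C (x s) : MvPolynomial σ ℂ) ∈ p := by
    rw [hpmem]
    simp
  have h3 := hy _ (hqM (hqp _ h2))
  have h4 : φ (X s - MvPolynomial.C (x s)) = F s - MvPolynomial.C (x s) := by
    simp [hφ]
  rw [h4, map_sub, eval_C] at h3
  exact (sub_eq_zero.1 h3).symm

/-- more polynomials than variables are algebraically dependent -/
theorem exists_relation {σ τ : Type} [Fintype σ] [Fintype τ]
    (hcard : Fintype.card τ < Fintype.card σ) (F : σ → MvPolynomial τ ℂ) :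
    ∃ P : MvPolynomial σ ℂ, P ≠ 0 ∧ aeval F P = 0 := by
  by_contra hcon
  push Not at hcon
  have hind : AlgebraicIndependent ℂ F := by
    rw [algebraicIndependent_iff]
    intro P hP
    by_contra hP0
    exact hcon P hP0 hP
  have h1 := hind.cardinalMk_le_trdeg
  rw [MvPolynomial.trdeg_of_isDomain] at h1
  simp only [Cardinal.lift_id, Cardinal.mk_fintype] at h1
  have h2 : Fintype.card σ ≤ Fintype.card τ := by exact_mod_cast h1
  omega

end Pool.Agent.Lib.MP_d01072_ag
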