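import Mathlib

/-!
MP_d01072_ag: Comon's conjecture for general symmetric tensors. Definitions.

`V = ℂ^(n+1)`; tensors of order `d` are arrays. A map `c : Fin d → Fin p` distributes the `d` slots
to `p` groups, the group `k` having `d_k` slots; `Sym^{d_1} V ⊗ … ⊗ Sym^{d_p} V` is the space of
the arrays symmetric inside each group, and the cone over the Segre-Veronese variety consists of
the arrays `pt c l`, `l = (l_1, …, l_p)`.
-/

set_option autoImplicit false

namespace Pool.Agent.Lib.MP_d01072_ag

/-- complex arrays of order `d` and size `n + 1` in each direction -/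
abbrev Tens (n d : ℕ) : Type := (Fin d → Fin (n + 1)) → ℂ

/-- the point `l_1^{d_1} ⊗ … ⊗ l_p^{d_p}`: its entry at `(i_1, …, i_d)` is the product of the
`i_t`-th coordinates of the vectors `l_{c(t)}` -/
def pt {n d p : ℕ} (c : Fin d → Fin p) (l : Fin p → Fin (n + 1) → ℂ) : Tens n d :=
  fun i => ∏ t, l (c t) (i t)

/-- `T` is a sum of `r` points of the cone over the Segre-Veronese variety -/
def SumOf {n d p : ℕ} (c : Fin d → Fin p) (r : ℕ) (T : Tens n d) : Prop :=
  ∃ l : Fin r → Fin p → Fin (n + 1) → ℂ, T = ∑ j, pt c (l j)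

/-- the Segre-Veronese rank of type `c` (`⊤` if there is no such sum) -/
noncomputable def rk {n d p : ℕ} (c : Fin d → Fin p) (T : Tens n d) : ℕ∞ :=
  ⨅ (r : ℕ) (_ : SumOf c r T), (r : ℕ∞)

/-- all slots in one group: the Veronese case -/
def one (d : ℕ) : Fin d → Fin 1 := fun _ => 0

/-- the symmetric rank -/
noncomputable def srk {n d : ℕ} (T : Tens n d) : ℕ∞ := rk (one d) T

/-- the affine cone over the `h`-th secant variety of the Veronese variety: the Zariski closure of
the set of the sums of `h` points `l^{⊗ d}` -/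
def sec (n d h : ℕ) : Set (Tens n d) :=
  {T | ∀ P : MvPolynomial (Fin d → Fin (n + 1)) ℂ,
    (∀ S : Tens n d, SumOf (one d) h S → MvPolynomial.eval S P = 0) → MvPolynomial.eval T P = 0}

/-- the number of slots in the group `k` -/
def size {d p : ℕ} (c : Fin d → Fin p) (k : Fin p) : ℕ := Fintype.card {t : Fin d // c t = k}

end Pool.Agent.Lib.MP_d01072_ag
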