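import Pool.Agent.Lib.MP_d01072_ag.Alg

/-!
MP_d01072_ag: general sums of `h` points of the cone over a Segre-Veronese variety
`P^{m_1} × … × P^{m_p}` (degrees `δ_k`). The coordinates of the ambient space are indexed by tuples
of multisets.
-/

set_option autoImplicit false

namespace Pool.Agent.Lib.MP_d01072_ag

open MvPolynomial

lemma eval_aeval' {σ τ : Type} (F : σ → MvPolynomial τ ℂ) (z : τ → ℂ) (P : MvPolynomial σ ℂ) :
    eval z (aeval F P) = eval (fun s => eval z (F s)) P := by
  induction P using MvPolynomial.induction_on with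
  | C a => simp
  | add p q hp hq => rw [map_add, map_add, hp, hq, map_add]
  | mul_X p s hp => rw [map_mul, map_mul, hp, aeval_X, map_mul, eval_X]

lemma prod_pow_count {α : Type} [Fintype α] [DecidableEq α] (f : α → ℂ) (s : Multiset α) :
    ∏ a, f a ^ s.count a = (s.map f).prod := by
  rw [Finset.prod_multiset_map_count]
  symm
  refine Finset.prod_subset (Finset.subset_univ _) fun a _ ha => ?_
  rw [Multiset.count_eq_zero_of_notMem (by simpa using ha), pow_zero]

section Seg

variable {p : ℕ} (m δ : Fin p → ℕ)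

/-- the coordinates of the ambient space -/
abbrev Idx : Type := (k : Fin p) → Sym (Option (Fin (m k))) (δ k)

/-- vectors -/
abbrev Vec : Type := (k : Fin p) → Option (Fin (m k)) → ℂ

/-- the point `u_1^{δ_1} ⊗ … ⊗ u_p^{δ_p}` -/
def yy (u : Vec m) : Idx m δ → ℂ :=
  fun μ => ∏ k, (((μ k : Multiset (Option (Fin (m k)))).map (u k)).prod)

/-- variables for `r` points -/
abbrev Var (r : ℕ) : Type := Fin r × Option (Σ k : Fin p, Option (Fin (m k)))

/-- the generic sum of `r` points (with scalars) -/
noncomputable def gen (r : ℕ) : Idx m δ → MvPolynomial (Var m r) ℂ := fun μ =>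
  ∑ j, X (j, none) * ∏ k, (((μ k : Multiset (Option (Fin (m k)))).map
    (fun a => (X (j, some ⟨k, a⟩) : MvPolynomial (Var m r) ℂ))).prod)

/-- the polynomials vanishing on all sums of `r` points -/
def Vanish (r : ℕ) (P : MvPolynomial (Idx m δ) ℂ) : Prop :=
  ∀ (s : Fin r → ℂ) (u : Fin r → Vec m), eval (∑ j, s j • yy m δ (u j)) P = 0

lemma eval_gen (r : ℕ) (z : Var m r → ℂ) (μ : Idx m δ) :
    eval z (gen m δ r μ) =
      (∑ j, z (j, none) • yy m δ (fun k a => z (j, some ⟨k, a⟩))) μ := by
  simp only [gen, map_sum, map_mul, eval_X, map_prod, Finset.sum_apply, Pi.smul_apply, smul_eq_mul,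
    yy]
  refine Finset.sum_congr rfl fun j _ => ?_
  congr 1
  refine Finset.prod_congr rfl fun k _ => ?_
  rw [map_multiset_prod, Multiset.map_map]
  simp only [Function.comp_def, eval_X]

lemma eval_aeval_gen (r : ℕ) (z : Var m r → ℂ) (P : MvPolynomial (Idx m δ) ℂ) :
    eval z (aeval (gen m δ r) P) =
      eval (∑ j, z (j, none) • yy m δ (fun k a => z (j, some ⟨k, a⟩))) P := by
  rw [eval_aeval']
  congr 2
  funext μ
  exact eval_gen m δ r z μ

lemma vanish_iff (r : ℕ) (P : MvPolynomial (Idx m δ) ℂ) :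
    Vanish m δ r P ↔ aeval (gen m δ r) P = 0 := by
  constructor
  · intro h
    refine MvPolynomial.funext fun z => ?_
    rw [eval_aeval_gen, map_zero]
    exact h (fun j => z (j, none)) (fun j k a => z (j, some ⟨k, a⟩))
  · intro h s u
    have := eval_aeval_gen m δ r
      (fun q => Option.elim q.2 (s q.1) (fun b => u q.1 b.1 b.2)) P
    rw [h, map_zero] at this
    exact this.symm

lemma vanish_of_chart (r : ℕ) (P : MvPolynomial (Idx m δ) ℂ)
    (h : ∀ (s : Fin r → ℂ) (u : Fin r → Vec m), (∀ j k, u j k none ≠ 0) →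
      eval (∑ j, s j • yy m δ (u j)) P = 0) : Vanish m δ r P := by
  rw [vanish_iff]
  set D : MvPolynomial (Var m r) ℂ := ∏ j, ∏ k, X (j, some ⟨k, none⟩) with hDdef
  have hD : D ≠ 0 :=
    Finset.prod_ne_zero_iff.2 fun j _ => Finset.prod_ne_zero_iff.2 fun k _ => X_ne_zero _
  have hprod : aeval (gen m δ r) P * D = 0 := by
    refine MvPolynomial.funext fun z => ?_
    rw [map_mul, map_zero, eval_aeval_gen]
    by_cases hz : ∀ (j : Fin r) (k : Fin p), z (j, some ⟨k, none⟩) ≠ 0
    · rw [h _ _ hz, zero_mul]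
    · push Not at hz
      obtain ⟨j, k, hjk⟩ := hz
      have : eval z D = 0 := by
        rw [hDdef, map_prod]
        refine Finset.prod_eq_zero (Finset.mem_univ j) ?_
        rw [map_prod]
        refine Finset.prod_eq_zero (Finset.mem_univ k) ?_
        rw [eval_X, hjk]
      rw [this, mul_zero]
  exact (mul_eq_zero.1 hprod).resolve_right hD

lemma yy_smul (e : Fin p → ℂ) (u : Vec m) :
    yy m δ (fun k a => e k * u k a) = (∏ k, e k ^ δ k) • yy m δ u := by
  funext μ
  simp only [yy, Pi.smul_apply, smul_eq_mul]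
  rw [← Finset.prod_mul_distrib]
  refine Finset.prod_congr rfl fun k _ => ?_
  rw [Multiset.prod_map_mul, Multiset.map_const', Multiset.prod_replicate]
  congr 2
  exact (μ k).2

/-- the vector with first coordinates one -/
def cv (w : Option (Σ k : Fin p, Fin (m k)) → ℂ) : Vec m :=
  fun k a => Option.elim a 1 (fun b => w (some ⟨k, b⟩))

lemma chart_eq (s : ℂ) (u : Vec m) (hu : ∀ k, u k none ≠ 0) :
    s • yy m δ u = (s * ∏ k, u k none ^ δ k) •
      yy m δ (cv m fun q => Option.elim q 0 fun b => u b.1 (some b.2) / u b.1 none) := by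
  have h1 : u = fun k a => u k none *
      (cv m (fun q => Option.elim q 0 fun b => u b.1 (some b.2) / u b.1 none)) k a := by
    funext k a
    cases a with
    | none => simp [cv]
    | some b =>
      simp only [cv, Option.elim_some]
      field_simp [hu k]
  conv_lhs => rw [h1]
  rw [yy_smul, smul_smul]

/-- variables of the chart -/
abbrev CVar (r : ℕ) : Type := Fin r × Option (Σ k : Fin p, Fin (m k))

/-- the generic sum in the chart -/
noncomputable def gch (r : ℕ) : Idx m δ → MvPolynomial (CVar m r) ℂ := fun μ =>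
  ∑ j, X (j, none) * ∏ k, (((μ k : Multiset (Option (Fin (m k)))).map
    (fun a => (Option.elim a 1 (fun b => X (j, some ⟨k, b⟩)) : MvPolynomial (CVar m r) ℂ))).prod)

lemma eval_gch (r : ℕ) (z : CVar m r → ℂ) (μ : Idx m δ) :
    eval z (gch m δ r μ) =
      (∑ j, z (j, none) • yy m δ (cv m fun q => z (j, q))) μ := by
  simp only [gch, map_sum, map_mul, eval_X, map_prod, Finset.sum_apply, Pi.smul_apply, smul_eq_mul,
    yy]
  refine Finset.sum_congr rfl fun j _ => ?_
  congr 1
  refine Finset.prod_congr rfl fun k _ => ?_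
  rw [map_multiset_prod, Multiset.map_map]
  congr 2
  funext a
  cases a <;> simp [cv]

lemma card_idx : Fintype.card (Idx m δ) = ∏ k, (m k + δ k).choose (δ k) := by
  rw [Fintype.card_pi]
  refine Finset.prod_congr rfl fun k _ => ?_
  rw [Sym.card_sym_eq_multichoose, Fintype.card_option, Fintype.card_fin, Nat.multichoose_eq]
  congr 1
  omega

lemma card_cvar (r : ℕ) : Fintype.card (CVar m r) = r * (∑ k, m k + 1) := by
  rw [Fintype.card_prod, Fintype.card_fin, Fintype.card_option, Fintype.card_sigma]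
  simp only [Fintype.card_fin]

lemma exists_vanish (r : ℕ) (hr : r * (∑ k, m k + 1) < ∏ k, (m k + δ k).choose (δ k)) :
    ∃ P : MvPolynomial (Idx m δ) ℂ, P ≠ 0 ∧ Vanish m δ r P := by
  rw [← card_idx, ← card_cvar m r] at hr
  obtain ⟨P, hP, hP0⟩ := exists_relation hr (gch m δ r)
  refine ⟨P, hP, vanish_of_chart m δ r P fun s u hu => ?_⟩
  have h1 := congrArg (eval (fun q : CVar m r => Option.elim q.2
    (s q.1 * ∏ k, u q.1 k none ^ δ k) (fun b => u q.1 b.1 (some b.2) / u q.1 b.1 none))) hP0
  rw [eval_aeval', map_zero] at h1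
  rw [← h1]
  have h2 : (∑ j, s j • yy m δ (u j)) = fun μ => eval (fun q : CVar m r => Option.elim q.2
      (s q.1 * ∏ k, u q.1 k none ^ δ k) (fun b => u q.1 b.1 (some b.2) / u q.1 b.1 none))
      (gch m δ r μ) := by
    funext μ
    rw [eval_gch]
    refine congrFun (Finset.sum_congr rfl fun j _ => ?_) μ
    exact chart_eq m δ (s j) (u j) (hu j)
  rw [h2]

/-- exponents -/
noncomputable def expo (μ : Idx m δ) : (Σ k : Fin p, Option (Fin (m k))) →₀ ℕ :=
  Finsupp.equivFunOnFinite.symm (fun q => Multiset.count q.2 (μ q.1 : Multiset _))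

lemma expo_injective : Function.Injective (expo m δ) := by
  intro μ ν h
  funext k
  apply Subtype.ext
  ext a
  have := DFunLike.congr_fun h (⟨k, a⟩ : Σ k : Fin p, Option (Fin (m k)))
  exact this

lemma span_yy : Submodule.span ℂ (Set.range (yy m δ)) = ⊤ := by
  classical
  by_contra hcon
  obtain ⟨f, hf0, hf⟩ := Submodule.exists_le_ker_of_lt_top _ (lt_top_iff_ne_top.2 hcon)
  set a : Idx m δ → ℂ := fun μ => f (Pi.single μ 1) with ha
  have hfa : ∀ v : Idx m δ → ℂ, f v = ∑ μ, v μ * a μ := by
    intro v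
    rw [LinearMap.pi_apply_eq_sum_univ f v]
    refine Finset.sum_congr rfl fun μ _ => ?_
    rw [smul_eq_mul, ha]
    congr 2
    funext ν
    simp [Pi.single_apply, eq_comm]
  have hR : (∑ μ, monomial (expo m δ μ) (a μ) : MvPolynomial _ ℂ) = 0 := by
    refine MvPolynomial.funext fun z => ?_
    rw [map_zero, map_sum]
    have h1 : yy m δ (fun k b => z ⟨k, b⟩) ∈ LinearMap.ker f :=
      hf (Submodule.subset_span ⟨_, rfl⟩)
    rw [LinearMap.mem_ker, hfa] at h1
    rw [← h1]
    refine Finset.sum_congr rfl fun μ _ => ?_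
    rw [eval_monomial, mul_comm]
    congr 1
    rw [Finsupp.prod_fintype _ _ (fun _ => pow_zero _), Fintype.prod_sigma]
    refine Finset.prod_congr rfl fun k _ => ?_
    exact prod_pow_count (fun b => z ⟨k, b⟩) (μ k : Multiset _)
  have ha0 : ∀ μ, a μ = 0 := by
    intro μ
    have h2 := congrArg (coeff (expo m δ μ)) hR
    rw [coeff_zero, coeff_sum, Finset.sum_eq_single μ] at h2
    · rwa [coeff_monomial, if_pos rfl] at h2
    · intro ν _ hν
      rw [coeff_monomial, if_neg fun h => hν (expo_injective m δ h)]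
    · intro h
      exact absurd (Finset.mem_univ μ) h
  apply hf0
  refine LinearMap.ext fun v => ?_
  rw [hfa, LinearMap.zero_apply]
  exact Finset.sum_eq_zero fun μ _ => by rw [ha0 μ, mul_zero]

lemma exists_not_vanish (r : ℕ) (P : MvPolynomial (Idx m δ) ℂ) (hP : P ≠ 0)
    (hPr : Vanish m δ r P) :
    ∃ P' : MvPolynomial (Idx m δ) ℂ, Vanish m δ r P' ∧ ¬ Vanish m δ (r + 1) P' := by
  by_contra hcon
  push Not at hcon
  have key : ∀ (N : ℕ) (P' : MvPolynomial (Idx m δ) ℂ), Vanish m δ r P' → Vanish m δ N P' := by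
    intro N
    induction N with
    | zero =>
      intro P' hP' s u
      have := hP' 0 (fun _ => 0)
      simpa using this
    | succ N ih =>
      intro P' hP' s u
      rw [Fin.sum_univ_castSucc]
      set x : Idx m δ → ℂ := s (Fin.last N) • yy m δ (u (Fin.last N)) with hx
      set Px : MvPolynomial (Idx m δ) ℂ := aeval (fun μ => X μ + C (x μ)) P' with hPx
      have hev : ∀ S : Idx m δ → ℂ, eval S Px = eval (S + x) P' := by
        intro S
        rw [hPx, eval_aeval']
        congr 2
        funext μ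
        simp
      rw [← hev]
      refine ih Px (fun s' u' => ?_) _ _
      rw [hev]
      have h1 := hcon P' hP' (Fin.snoc s' (s (Fin.last N))) (Fin.snoc u' (u (Fin.last N)))
      rw [Fin.sum_univ_castSucc] at h1
      simp only [Fin.snoc_castSucc, Fin.snoc_last] at h1
      exact h1
  apply hP
  refine MvPolynomial.funext fun v => ?_
  rw [map_zero]
  have hv : v ∈ Submodule.span ℂ (Set.range (yy m δ)) := by
    rw [span_yy]
    trivial
  obtain ⟨N, s, g, hg⟩ := Submodule.mem_span_set'.1 hv
  choose u hu using fun j => (g j).2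
  rw [← hg]
  have := key N P hPr s u
  simp only [hu] at this
  exact this

/-- a general sum of `r + 1` points is not a sum of `r` points -/
theorem exists_sep (r : ℕ) (hr : r * (∑ k, m k + 1) < ∏ k, (m k + δ k).choose (δ k)) :
    ∃ P : MvPolynomial (Idx m δ) ℂ, Vanish m δ r P ∧
      ∃ (s : Fin (r + 1) → ℂ) (w : Fin (r + 1) → Option (Σ k : Fin p, Fin (m k)) → ℂ),
        eval (∑ j, s j • yy m δ (cv m (w j))) P ≠ 0 := by
  obtain ⟨P, hP, hPr⟩ := exists_vanish m δ r hr
  obtain ⟨P', hP', hP''⟩ := exists_not_vanish m δ r P hP hPr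
  refine ⟨P', hP', ?_⟩
  by_contra hcon
  push Not at hcon
  apply hP''
  refine vanish_of_chart m δ (r + 1) P' fun s u hu => ?_
  have h1 := hcon (fun j => s j * ∏ k, u j k none ^ δ k)
    (fun j q => Option.elim q 0 fun b => u j b.1 (some b.2) / u j b.1 none)
  rw [← h1]
  congr 2
  refine Finset.sum_congr rfl fun j _ => ?_
  exact chart_eq m δ (s j) (u j) (hu j)

end Seg

end Pool.Agent.Lib.MP_d01072_ag
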