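import Pool.Agent.Lib.MP_d01072_ag.Defs
import Pool.Agent.Lib.MP_d01072_ag.Seg

/-!
MP_d01072_ag: rank equals symmetric rank for a general point of `sec_h` of the Veronese variety as
long as `(h - 1) (n + 1) < ∏ C(m_k + d_k, d_k)`, `∑ m_k = n`.
-/

set_option autoImplicit false

namespace Pool.Agent.Lib.MP_d01072_ag

open MvPolynomial

section Basic

variable {n d p : ℕ}

lemma pt_one (c : Fin d → Fin p) (v : Fin (n + 1) → ℂ) :
    pt (one d) (fun _ => v) = pt c (fun _ => v) := rfl

lemma pt_zero (hd : 0 < d) (c : Fin d → Fin p) : pt (n := n) c (fun _ _ => 0) = 0 := by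
  funext i
  simp only [pt, Finset.prod_const, Finset.card_univ, Fintype.card_fin, Pi.zero_apply]
  exact zero_pow hd.ne'

lemma pt_smul (c : Fin d → Fin p) (l : Fin p → Fin (n + 1) → ℂ) (ν : ℂ) :
    pt c (fun k a => ν * l k a) = (ν ^ d) • pt c l := by
  funext i
  simp only [pt, Finset.prod_mul_distrib, Finset.prod_const, Finset.card_univ, Fintype.card_fin,
    Pi.smul_apply, smul_eq_mul]

lemma SumOf.mono (hd : 0 < d) {c : Fin d → Fin p} {r r' : ℕ} (h : r ≤ r') {T : Tens n d}
    (hT : SumOf c r T) : SumOf c r' T := by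
  obtain ⟨e, rfl⟩ := Nat.exists_eq_add_of_le h
  obtain ⟨l, rfl⟩ := hT
  refine ⟨Fin.append l (fun _ _ _ => 0), ?_⟩
  rw [Fin.sum_univ_add]
  simp only [Fin.append_left, Fin.append_right, pt_zero hd c, Finset.sum_const_zero, add_zero]

lemma SumOf.smul (hd : 0 < d) {c : Fin d → Fin p} {r : ℕ} {T : Tens n d} (hT : SumOf c r T)
    (z : ℂ) : SumOf c r (z • T) := by
  obtain ⟨ν, hν⟩ := IsAlgClosed.exists_pow_nat_eq z hd
  obtain ⟨l, rfl⟩ := hT
  refine ⟨fun j k a => ν * l j k a, ?_⟩
  rw [Finset.smul_sum]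
  refine Finset.sum_congr rfl fun j _ => ?_
  rw [pt_smul, hν]

lemma SumOf.of_one {c : Fin d → Fin p} {r : ℕ} {T : Tens n d} (hT : SumOf (one d) r T) :
    SumOf c r T := by
  obtain ⟨l, rfl⟩ := hT
  refine ⟨fun j _ => l j 0, ?_⟩
  refine Finset.sum_congr rfl fun j _ => ?_
  funext i
  simp only [pt, one]

/-- the rank is `h` -/
lemma rk_eq {c : Fin d → Fin p} {h : ℕ} {T : Tens n d} (h1 : SumOf c h T)
    (h2 : ∀ r, r + 1 ≤ h → ¬ SumOf c r T) : rk c T = h := by
  refine le_antisymm (iInf₂_le h h1) ?_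
  refine le_iInf₂ fun r hr => ?_
  by_contra hcon
  rw [not_le] at hcon
  exact h2 r (by exact_mod_cast hcon) hr

lemma sumOf_of_rk_le (hd : 0 < d) {c : Fin d → Fin p} {h : ℕ} {T : Tens n d}
    (h1 : rk c T ≤ h) : SumOf c h T := by
  by_contra hcon
  have h2 : ((h + 1 : ℕ) : ℕ∞) ≤ rk c T := by
    refine le_iInf₂ fun r hr => ?_
    have : h + 1 ≤ r := by
      by_contra h3
      exact hcon (hr.mono hd (by omega))
    exact_mod_cast this
  have h3 := h2.trans h1
  have : h + 1 ≤ h := by exact_mod_cast h3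
  omega

lemma rk_smul (hd : 0 < d) (c : Fin d → Fin p) (T : Tens n d) {z : ℂ} (hz : z ≠ 0) :
    rk c (z • T) = rk c T := by
  have key : ∀ (T : Tens n d) (z : ℂ), rk c (z • T) ≤ rk c T := fun T z =>
    le_iInf₂ fun r hr => iInf₂_le r (hr.smul hd z)
  refine le_antisymm (key T z) ?_
  have := key (z • T) z⁻¹
  rwa [smul_smul, inv_mul_cancel₀ hz, one_smul] at this

lemma smul_mem_sec (hd : 0 < d) {h : ℕ} {T : Tens n d} (hT : T ∈ sec n d h) (z : ℂ) :
    z • T ∈ sec n d h := by
  intro P hP
  have h1 : ∀ S : Tens n d, eval S (aeval (fun i => C z * X i) P) = eval (z • S) P := by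
    intro S
    rw [eval_aeval']
    congr 2
    funext i
    simp
  rw [← h1]
  refine hT _ fun S hS => ?_
  rw [h1]
  exact hP _ (hS.smul hd z)

lemma sumOf_mem_sec {h : ℕ} {T : Tens n d} (hT : SumOf (one d) h T) : T ∈ sec n d h :=
  fun _ hP => hP T hT

/-- functions with a given image multiset -/
lemma exists_fun {α β : Type} [Fintype β] (s : Multiset α) (hs : Multiset.card s = Fintype.card β) :
    ∃ g : β → α, (Finset.univ.val.map g) = s := by
  induction s using Quotient.inductionOn with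
  | _ l =>
    have hl : l.length = Fintype.card β := hs
    let e : β ≃ Fin l.length := Fintype.equivFinOfCardEq hl.symm
    refine ⟨fun b => l.get (e b), ?_⟩
    have h1 : (Finset.univ.val.map fun b : β => l.get (e b)) =
        (Finset.univ : Finset (Fin l.length)).val.map l.get := by
      have h2 : (Finset.univ : Finset (Fin l.length)) = Finset.univ.map e.toEmbedding := by
        simp
      rw [h2, Finset.map_val, Multiset.map_map]
      rfl
    rw [h1]
    change _ = (l : Multiset α)
    rw [Fin.univ_def]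
    change (((List.finRange l.length).map l.get : List α) : Multiset α) = _
    rw [List.map_get_finRange]

/-- homogeneous components along a line -/
lemma coeff_line {σ : Type} (Q : MvPolynomial σ ℂ) (T : σ → ℂ) (k : ℕ) :
    (aeval (fun i => Polynomial.C (T i) * Polynomial.X : σ → Polynomial ℂ) Q).coeff k =
      eval T (homogeneousComponent k Q) := by
  induction Q using MvPolynomial.induction_on' with
  | monomial s a =>
    rw [aeval_monomial]
    have h1 : (s.prod fun i e => (Polynomial.C (T i) * Polynomial.X : Polynomial ℂ) ^ e) =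
        Polynomial.C (s.prod fun i e => T i ^ e) * Polynomial.X ^ s.degree := by
      have h0 : s.degree = ∑ i ∈ s.support, s i := rfl
      rw [Finsupp.prod, Finsupp.prod, map_prod, h0, ← Finset.prod_pow_eq_pow_sum,
        ← Finset.prod_mul_distrib]
      refine Finset.prod_congr rfl fun i _ => ?_
      rw [mul_pow, map_pow]
    rw [h1]
    rw [Polynomial.algebraMap_eq, ← mul_assoc, ← map_mul, Polynomial.coeff_C_mul_X_pow,
      homogeneousComponent_of_mem (n := s.degree)
        ((mem_homogeneousSubmodule _ _).2 (isHomogeneous_monomial a rfl))]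
    by_cases hk : k = s.degree
    · rw [if_pos hk, if_pos hk, eval_monomial]
    · rw [if_neg hk, if_neg hk, map_zero]
  | add p q hp hq => rw [map_add, Polynomial.coeff_add, hp, hq, map_add, map_add]

lemma eval_line {σ : Type} (Q : MvPolynomial σ ℂ) (T : σ → ℂ) (z : ℂ) :
    (aeval (fun i => Polynomial.C (T i) * Polynomial.X : σ → Polynomial ℂ) Q).eval z =
      eval (z • T) Q := by
  induction Q using MvPolynomial.induction_on with
  | C a => simp
  | add p q hp hq => rw [map_add, Polynomial.eval_add, hp, hq, map_add]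
  | mul_X p s hp =>
    rw [map_mul, Polynomial.eval_mul, hp, aeval_X, map_mul, eval_X]
    simp only [Polynomial.eval_mul, Polynomial.eval_C, Polynomial.eval_X, Pi.smul_apply,
      smul_eq_mul]
    ring

end Basic

section Final

variable {n d p : ℕ}

/-- the coordinates of `V`, indexed by one special coordinate and `p` blocks -/
noncomputable def eqv (m : Fin p → ℕ) (hm : ∑ k, m k = n) :
    Option (Σ k : Fin p, Fin (m k)) ≃ Fin (n + 1) :=
  Fintype.equivOfCardEq (by
    rw [Fintype.card_option, Fintype.card_sigma, Fintype.card_fin]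
    simp only [Fintype.card_fin, hm])

/-- the special coordinate together with the block `k` -/
noncomputable def emb (m : Fin p → ℕ) (hm : ∑ k, m k = n) (k : Fin p) (a : Option (Fin (m k))) :
    Fin (n + 1) := eqv m hm (a.map fun b => ⟨k, b⟩)

lemma exists_rep (c : Fin d → Fin p) (m : Fin p → ℕ) (hm : ∑ k, m k = n) (μ : Idx m (size c)) :
    ∃ i : Fin d → Fin (n + 1), ∀ l : Fin p → Fin (n + 1) → ℂ,
      pt c l i = yy m (size c) (fun k a => l k (emb m hm k a)) μ := by
  have h1 : ∀ k : Fin p, ∃ g : {t : Fin d // c t = k} → Option (Fin (m k)),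
      (Finset.univ.val.map g) = (μ k : Multiset (Option (Fin (m k)))) := fun k =>
    exists_fun _ (μ k).2
  choose g hg using h1
  refine ⟨fun t => emb m hm (c t) (g (c t) ⟨t, rfl⟩), fun l => ?_⟩
  have h2 : pt c l (fun t => emb m hm (c t) (g (c t) ⟨t, rfl⟩)) =
      ∏ q : (Σ k : Fin p, {t : Fin d // c t = k}), l q.1 (emb m hm q.1 (g q.1 q.2)) :=
    Equiv.prod_comp (Equiv.sigmaFiberEquiv c).symm
      (fun q : (Σ k : Fin p, {t : Fin d // c t = k}) => l q.1 (emb m hm q.1 (g q.1 q.2)))
  rw [h2, Fintype.prod_sigma]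
  simp only [yy]
  refine Finset.prod_congr rfl fun k _ => ?_
  rw [← hg k, Multiset.map_map]
  rfl

lemma sum_size (c : Fin d → Fin p) : ∑ k, size c k = d := by
  have h1 := Fintype.card_congr (Equiv.sigmaFiberEquiv c)
  rw [Fintype.card_sigma, Fintype.card_fin] at h1
  exact h1

/-- the separating polynomial on the space of tensors -/
lemma exists_first (hd : 0 < d) (c : Fin d → Fin p) (m : Fin p → ℕ) (hm : ∑ k, m k = n) (r : ℕ)
    (hr : r * (n + 1) < ∏ k, (m k + size c k).choose (size c k)) :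
    ∃ Q : MvPolynomial (Fin d → Fin (n + 1)) ℂ,
      (∀ T : Tens n d, SumOf c r T → eval T Q = 0) ∧
      ∃ S : Tens n d, SumOf (one d) (r + 1) S ∧ eval S Q ≠ 0 := by
  obtain ⟨P, hP, s, w, hw⟩ := exists_sep m (size c) r (by rwa [hm])
  choose rep hrep using exists_rep c m hm
  refine ⟨rename rep P, ?_, ?_⟩
  · rintro T ⟨l, rfl⟩
    rw [eval_rename]
    rw [← hP (fun _ => 1) (fun j k a => l j k (emb m hm k a))]
    congr 2
    funext μ
    simp only [Function.comp_apply, Finset.sum_apply, one_smul, hrep]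
  · choose t ht using fun j => IsAlgClosed.exists_pow_nat_eq (s j) hd
    refine ⟨∑ j, pt (one d) (fun _ i => t j *
      Option.elim ((eqv m hm).symm i) 1 fun q => w j (some q)), ⟨_, rfl⟩, ?_⟩
    rw [eval_rename]
    have h1 : (∑ j, pt (one d) (fun _ i => t j *
        Option.elim ((eqv m hm).symm i) 1 fun q => w j (some q))) ∘ rep =
        ∑ j, s j • yy m (size c) (cv m (w j)) := by
      funext μ
      simp only [Function.comp_apply, Finset.sum_apply, Pi.smul_apply]
      refine Finset.sum_congr rfl fun j _ => ?_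
      have h2 : pt (one d) (fun _ i => t j *
          Option.elim ((eqv m hm).symm i) 1 fun q => w j (some q)) (rep μ) =
          pt c (fun _ i => t j *
          Option.elim ((eqv m hm).symm i) 1 fun q => w j (some q)) (rep μ) := rfl
      rw [h2, hrep]
      have h3 : (fun (k : Fin p) (a : Option (Fin (m k))) => t j *
          Option.elim ((eqv m hm).symm (emb m hm k a)) 1 fun q => w j (some q)) =
          fun k a => t j * cv m (w j) k a := by
        funext k a
        simp only [emb, Equiv.symm_apply_apply]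
        cases a <;> simp [cv]
      rw [h3, yy_smul m (size c) (fun _ => t j) (cv m (w j)), Finset.prod_pow_eq_pow_sum,
        sum_size, ht, Pi.smul_apply]
    rw [h1]
    exact hw

/-- the parametrisation of the sums of `h` points of the Veronese cone -/
noncomputable def par (n d h : ℕ) :
    (Fin d → Fin (n + 1)) → MvPolynomial (Fin h × Fin (n + 1)) ℂ :=
  fun i => ∑ j, ∏ t, X (j, i t)

lemma eval_aeval_par (h : ℕ) (y : Fin h × Fin (n + 1) → ℂ)
    (P : MvPolynomial (Fin d → Fin (n + 1)) ℂ) :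
    eval y (aeval (par n d h) P) = eval (∑ j, pt (one d) (fun _ a => y (j, a))) P := by
  rw [eval_aeval']
  congr 2
  funext i
  simp only [par, map_sum, map_prod, eval_X, Finset.sum_apply, pt]

lemma aeval_par_eq_zero (h : ℕ) (P : MvPolynomial (Fin d → Fin (n + 1)) ℂ)
    (hP : aeval (par n d h) P = 0) (S : Tens n d) (hS : SumOf (one d) h S) : eval S P = 0 := by
  obtain ⟨l, rfl⟩ := hS
  have h1 := eval_aeval_par h (fun q : Fin h × Fin (n + 1) => l q.1 0 q.2) P
  rw [hP, map_zero] at h1
  rw [h1]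
  congr 2

/-- Comon's equality on a nonempty open subset (polynomial not yet homogeneous) -/
lemma main_affine (hd : 0 < d) (c : Fin d → Fin p) (m : Fin p → ℕ) (hm : ∑ k, m k = n) (r : ℕ)
    (hr : r * (n + 1) < ∏ k, (m k + size c k).choose (size c k)) :
    ∃ Q : MvPolynomial (Fin d → Fin (n + 1)) ℂ,
      (∃ T ∈ sec n d (r + 1), eval T Q ≠ 0) ∧
      ∀ T ∈ sec n d (r + 1), eval T Q ≠ 0 → rk c T = (r + 1 : ℕ) ∧ srk T = (r + 1 : ℕ) := by
  obtain ⟨Q1, hQ1, S, hS, hSQ⟩ := exists_first hd c m hm r hr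
  obtain ⟨Q2, hQ2, hopen⟩ := exists_open_image (par n d (r + 1))
  have h1 : aeval (par n d (r + 1)) Q1 ≠ 0 := fun h0 => hSQ (aeval_par_eq_zero _ _ h0 S hS)
  refine ⟨Q1 * Q2, ?_, ?_⟩
  · have h2 : aeval (par n d (r + 1)) (Q1 * Q2) ≠ 0 := by
      rw [map_mul]
      exact mul_ne_zero h1 hQ2
    have h3 : ∃ y, eval y (aeval (par n d (r + 1)) (Q1 * Q2)) ≠ 0 := by
      by_contra hcon
      push Not at hcon
      exact h2 (MvPolynomial.funext fun y => by rw [hcon, map_zero])
    obtain ⟨y, hy⟩ := h3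
    rw [eval_aeval_par] at hy
    exact ⟨_, sumOf_mem_sec ⟨fun j _ a => y (j, a), rfl⟩, hy⟩
  · intro T hT hTQ
    rw [map_mul] at hTQ
    have hT1 := left_ne_zero_of_mul hTQ
    have hT2 := right_ne_zero_of_mul hTQ
    obtain ⟨y, hy⟩ := hopen T (fun P hP => hT P fun S hS => aeval_par_eq_zero _ P hP S hS) hT2
    have hsum : SumOf (one d) (r + 1) T := by
      refine ⟨fun j _ a => y (j, a), ?_⟩
      funext i
      rw [hy i]
      simp only [par, map_sum, map_prod, eval_X, Finset.sum_apply, pt]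
    have hnot : ∀ r', r' + 1 ≤ r + 1 → ¬ SumOf c r' T := fun r' hr' hcon =>
      hT1 (hQ1 T (hcon.mono hd (by omega)))
    exact ⟨rk_eq hsum.of_one hnot, rk_eq hsum fun r' hr' hcon => hnot r' hr' hcon.of_one⟩

/-- **Comon's conjecture for the general points of `sec_h`**, `(h - 1) (n + 1) < ∏ C(m_k + d_k, d_k)`
where `m_1 + … + m_p = n` -/
theorem comon_general (hd : 0 < d) (c : Fin d → Fin p) (m : Fin p → ℕ) (hm : ∑ k, m k = n)
    (h : ℕ) (hh : 1 ≤ h)
    (hr : (h - 1) * (n + 1) < ∏ k, (m k + size c k).choose (size c k)) :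
    ∃ (e : ℕ) (Q : MvPolynomial (Fin d → Fin (n + 1)) ℂ), Q.IsHomogeneous e ∧
      (∃ T ∈ sec n d h, eval T Q ≠ 0) ∧
      ∀ T ∈ sec n d h, eval T Q ≠ 0 → rk c T = h ∧ srk T = h := by
  obtain ⟨r, rfl⟩ : ∃ r, h = r + 1 := ⟨h - 1, by omega⟩
  obtain ⟨Q, ⟨T0, hT0, hT0Q⟩, hQ⟩ := main_affine hd c m hm r (by simpa using hr)
  have h1 : ∃ k, eval T0 (homogeneousComponent k Q) ≠ 0 := by
    by_contra hcon
    push Not at hcon
    apply hT0Q
    rw [← sum_homogeneousComponent Q, map_sum]
    exact Finset.sum_eq_zero fun k _ => hcon k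
  obtain ⟨k, hk⟩ := h1
  refine ⟨k, homogeneousComponent k Q, homogeneousComponent_isHomogeneous k Q, ⟨T0, hT0, hk⟩, ?_⟩
  intro T hT hTk
  set q : Polynomial ℂ :=
    aeval (fun i => Polynomial.C (T i) * Polynomial.X :
      (Fin d → Fin (n + 1)) → Polynomial ℂ) Q with hq
  have hq0 : Polynomial.X * q ≠ 0 := by
    refine mul_ne_zero Polynomial.X_ne_zero fun h0 => hTk ?_
    rw [← coeff_line, ← hq, h0, Polynomial.coeff_zero]
  obtain ⟨z, hz⟩ : ∃ z, (Polynomial.X * q).eval z ≠ 0 := by
    by_contra hcon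
    push Not at hcon
    exact hq0 (Polynomial.funext fun z => by rw [hcon, Polynomial.eval_zero])
  rw [Polynomial.eval_mul, Polynomial.eval_X, hq, eval_line] at hz
  have hz0 := left_ne_zero_of_mul hz
  obtain ⟨h2, h3⟩ := hQ (z • T) (smul_mem_sec hd hT z) (right_ne_zero_of_mul hz)
  rw [rk_smul hd c T hz0] at h2
  rw [srk, rk_smul hd (one d) T hz0] at h3
  exact ⟨h2, h3⟩

end Final

end Pool.Agent.Lib.MP_d01072_ag
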